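import Mathlib
import Pool.Agent.H.MP_b0ed8d_nt.N11202

namespace Pool.Agent.Results.MP_c7ed95_nt.No

open Pool.Agent.H.MP_b0ed8d_nt

theorem result : ∃ (n : ℕ) (x y r : ℝ), IsMC n ∧ ¬ IsMC (n + 1) ∧ MCc n x y r ∧
    (bdry x y r).encard = 5 := by
  have hr : (√(28561 / 8) : ℝ) ^ 2 = 28561 / 8 := Real.sq_sqrt (by norm_num)
  have hm : marg 4 57122 124 240 (245, 245) = true := by decide +kernel
  have h2 := center_count 4 57122 124 240 (245, 245) (by norm_num) hm
    (245 / 4) (245 / 4) ((√(28561 / 8) : ℝ) ^ 2) (by norm_num) (by norm_num)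
    (by rw [hr]; norm_num)
  have h3 : (grid 124).countP (fun p => Nat.blt (d2 4 (245, 245) p) 57122) = 11202 := by
    decide +kernel
  have h4 := bdry_count 4 57122 124 240 (245, 245) (by norm_num) hm
    (245 / 4) (245 / 4) (√(28561 / 8)) (by norm_num) (by norm_num) (by rw [hr]; norm_num)
  have h5 : (grid 124).countP (fun p => Nat.beq (d2 4 (245, 245) p) 57122) = 5 := by
    decide +kernel
  rw [h3] at h2
  rw [h5] at h4
  have h6 : MCc 11202 (245 / 4) (245 / 4) (√(28561 / 8)) :=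
    thmD 16384 (57122 * 2 ^ 24) 11204 11202 (by norm_num) s5_A (by norm_num) _ _ _
      (Real.sqrt_pos.2 (by norm_num)) (by rw [hr]; norm_num) h2
  exact ⟨11202, _, _, _, ⟨_, _, _, h6⟩, s5_non, h6, by rw [h4]; rfl⟩

end Pool.Agent.Results.MP_c7ed95_nt.No
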